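import Mathlib

/-!
# `P_n ^ 2 + 1` is not always squarefree

`P_n` is the product of the first `n` primes. For `n = 9` one has `P_9 = 2 * 3 * 5 * ... * 23 = 223092870`
and `29 ^ 2` divides `P_9 ^ 2 + 1 = 49770428644836901`.
-/

set_option autoImplicit false

namespace Pool.Agent.Results.MP_80b119_nt.NotSquarefree

lemma nth_val (k p : ℕ) (hp : p.Prime) (hc : Nat.count Nat.Prime p = k) :
    Nat.nth Nat.Prime k = p := by
  rw [← hc]
  exact Nat.nth_count hp

/-- With `p_0 = 2, p_1 = 3, ...` the primes (`Nat.nth Nat.Prime k = p_k`) and `P_n = p_0 ... p_(n-1)`,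
the prime `29` satisfies `29 ^ 2 ∣ P_9 ^ 2 + 1`; in particular not all numbers `P_n ^ 2 + 1`,
`n ≥ 0`, are squarefree. -/
theorem result :
    (29 ^ 2 ∣ (∏ k ∈ Finset.range 9, Nat.nth Nat.Prime k) ^ 2 + 1) ∧
      ¬ ∀ n : ℕ, Squarefree ((∏ k ∈ Finset.range n, Nat.nth Nat.Prime k) ^ 2 + 1) := by
  have h0 := nth_val 0 2 (by norm_num) (by decide)
  have h1 := nth_val 1 3 (by norm_num) (by decide)
  have h2 := nth_val 2 5 (by norm_num) (by decide)
  have h3 := nth_val 3 7 (by norm_num) (by decide)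
  have h4 := nth_val 4 11 (by norm_num) (by decide)
  have h5 := nth_val 5 13 (by norm_num) (by decide)
  have h6 := nth_val 6 17 (by norm_num) (by decide)
  have h7 := nth_val 7 19 (by norm_num) (by decide)
  have h8 := nth_val 8 23 (by norm_num) (by decide)
  have key : 29 ^ 2 ∣ (∏ k ∈ Finset.range 9, Nat.nth Nat.Prime k) ^ 2 + 1 := by
    simp only [Finset.prod_range_succ, Finset.prod_range_zero, h0, h1, h2, h3, h4, h5, h6, h7, h8]
    norm_num
  refine ⟨key, fun h => ?_⟩
  have h9 := h 9 29 (by rw [← pow_two]; exact key)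
  rw [Nat.isUnit_iff] at h9
  omega

end Pool.Agent.Results.MP_80b119_nt.NotSquarefree
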